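import Pool.Agent.Lib.MP_fd8555_co.LinMain

/-!
Linear triangle graph codes that beat the greedy (Gilbert-Varshamov) bound by a factor quadratic
in `n`: `M_K3(n) ≥ n ^ 2 B(n) / (128 binom(n, n / 2))` for large `n`.
-/

set_option autoImplicit false

namespace Pool.Agent.Results.MP_fd8555_co.LinearLower

open scoped symmDiff

theorem result : ∃ n0 : ℕ, ∀ n : ℕ, n0 ≤ n → ∃ F : Finset (SimpleGraph (Fin n)),
    (∀ G ∈ F, ∀ H ∈ F, G ∆ H ∈ F) ∧
    (∀ G ∈ F, ∀ H ∈ F, G ≠ H → ¬ (G ∆ H).CliqueFree 3) ∧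
      n ^ 2 * 2 ^ (n.choose 2 - (n + 1) / 2 * (n / 2)) ≤ 128 * n.choose (n / 2) * F.card :=
  Pool.Agent.Lib.MP_fd8555_co.lin_code

end Pool.Agent.Results.MP_fd8555_co.LinearLower
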